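import Mathlib

/-!
# Decision lists, learners, mistakes
-/

namespace Pool.Agent.helper36.DL

/-- assignments of truth values to `n` variables -/
abbrev Cube (n : ℕ) : Type := Fin n → Bool

/-- The value at `x` of the decision list with the rules `l` and the default value `b`. A rule
`(j, s, o)` is: if the variable `j` has the value `s`, then output `o`, else go on. -/
def evalDL {n : ℕ} : List (Fin n × Bool × Bool) → Bool → Cube n → Bool
  | [], b, _ => b
  | (j, s, o) :: l, b, x => if x j = s then o else evalDL l b x

/-- `f` is computed by a decision list -/
def IsDecisionList {n : ℕ} (f : Cube n → Bool) : Prop := ∃ l b, ∀ x, f x = evalDL l b x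

/-- the set of the relevant variables of `f`: those on which `f` depends -/
def relevant {n : ℕ} (f : Cube n → Bool) : Set (Fin n) :=
  {j | ∃ x, f (Function.update x j (!(x j))) ≠ f x}

/-- A learner: given the history (the earlier instances with their labels) and the new instance
it predicts a label. No bound on the running time is imposed. So `A h` is the hypothesis which
the learner `A` holds after the history `h`. -/
abbrev Learner (n : ℕ) : Type := List (Cube n × Bool) → Cube n → Bool

/-- the number of wrong predictions of the learner `A` with target `c`, after the history `h`,
on the sequence of instances `xs` -/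
def mistakes {n : ℕ} (A : Learner n) (c : Cube n → Bool) :
    List (Cube n × Bool) → List (Cube n) → ℕ
  | _, [] => 0
  | h, x :: xs => (if A h x = c x then 0 else 1) + mistakes A c (h ++ [(x, c x)]) xs

/-- `h` is a polynomial threshold function of degree at most `d`: the sign of a real polynomial
in the variables with values 0 and 1 -/
def IsPTF {n : ℕ} (d : ℕ) (h : Cube n → Bool) : Prop :=
  ∃ p : MvPolynomial (Fin n) ℝ, p.totalDegree ≤ d ∧
    ∀ x, h x = true ↔ 0 < MvPolynomial.eval (fun j => if x j then (1 : ℝ) else 0) p

end Pool.Agent.helper36.DL
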