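import Mathlib

/-!
# Real set functions of bounded degree

A real function `F` of finite sets has degree at most `d` if it is `F A = ∑ S ⊆ A, c S` with
`c S = 0` for all `S` with more than `d` elements.
-/

namespace Pool.Agent.helper36.DL

open Finset

variable {α β : Type*} [DecidableEq α] [DecidableEq β]

/-- `F` has degree at most `d` -/
def HasDeg (d : ℕ) (F : Finset α → ℝ) : Prop :=
  ∃ c : Finset α → ℝ, (∀ S, d < S.card → c S = 0) ∧ ∀ A, F A = ∑ S ∈ A.powerset, c S

omit [DecidableEq α] in
theorem HasDeg.neg {d : ℕ} {F : Finset α → ℝ} (h : HasDeg d F) : HasDeg d (fun A => - F A) := by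
  obtain ⟨c, hc, hF⟩ := h
  refine ⟨fun S => - c S, fun S hS => by simp [hc S hS], fun A => ?_⟩
  simp only
  rw [hF A, Finset.sum_neg_distrib]

/-- substitution: the base set `A`, and the variables of `U` grouped by `g` -/
theorem HasDeg.subst {d : ℕ} {F : Finset α → ℝ} (h : HasDeg d F) (A U : Finset α)
    (g : α → β) : HasDeg d (fun I : Finset β => F (A ∪ U.filter (fun j => g j ∈ I))) := by
  obtain ⟨c, hc, hF⟩ := h
  refine ⟨fun J => ∑ S ∈ (A ∪ U).powerset with (S \ A).image g = J, c S, fun J hJ => ?_,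
    fun I => ?_⟩
  · refine Finset.sum_eq_zero fun S hS => ?_
    rw [Finset.mem_filter] at hS
    apply hc
    calc d < J.card := hJ
      _ = ((S \ A).image g).card := by rw [hS.2]
      _ ≤ (S \ A).card := Finset.card_image_le
      _ ≤ S.card := Finset.card_le_card Finset.sdiff_subset
  · simp only
    rw [hF]
    have h1 : ∑ J ∈ I.powerset, ∑ S ∈ (A ∪ U).powerset with (S \ A).image g = J, c S
        = ∑ S ∈ (A ∪ U).powerset with (S \ A).image g ∈ I.powerset, c S := by
      rw [← Finset.sum_fiberwise_of_maps_to (s := (A ∪ U).powerset.filter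
        (fun S => (S \ A).image g ∈ I.powerset)) (t := I.powerset)
        (g := fun S => (S \ A).image g) (fun S hS => (Finset.mem_filter.1 hS).2) c]
      refine Finset.sum_congr rfl fun J hJ => Finset.sum_congr ?_ fun _ _ => rfl
      ext S
      simp only [Finset.mem_filter]
      constructor
      · rintro ⟨h1, h2⟩
        exact ⟨⟨h1, h2 ▸ hJ⟩, h2⟩
      · rintro ⟨⟨h1, _⟩, h2⟩
        exact ⟨h1, h2⟩
    rw [h1]
    refine Finset.sum_congr ?_ fun _ _ => rfl
    ext S
    simp only [Finset.mem_filter, Finset.mem_powerset]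
    constructor
    · intro hS
      refine ⟨fun x hx => ?_, fun y hy => ?_⟩
      · rcases Finset.mem_union.1 (hS hx) with h | h
        · exact Finset.mem_union_left _ h
        · exact Finset.mem_union_right _ (Finset.mem_filter.1 h).1
      · obtain ⟨x, hx, rfl⟩ := Finset.mem_image.1 hy
        rw [Finset.mem_sdiff] at hx
        rcases Finset.mem_union.1 (hS hx.1) with h | h
        · exact absurd h hx.2
        · exact (Finset.mem_filter.1 h).2
    · rintro ⟨h1, h2⟩ x hx
      by_cases hA : x ∈ A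
      · exact Finset.mem_union_left _ hA
      · refine Finset.mem_union_right _ (Finset.mem_filter.2 ⟨?_, ?_⟩)
        · rcases Finset.mem_union.1 (h1 hx) with h | h
          · exact absurd h hA
          · exact h
        · exact h2 (Finset.mem_image.2 ⟨x, Finset.mem_sdiff.2 ⟨hx, hA⟩, rfl⟩)

/-- the coefficients are bounded by the values -/
theorem coeff_bound (J : Finset α) : ∀ (c F : Finset α → ℝ) (B : ℝ),
    (∀ K ⊆ J, F K = ∑ S ∈ K.powerset, c S) → (∀ K ⊆ J, |F K| ≤ B) →
    |c J| ≤ 2 ^ J.card * B := by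
  induction J using Finset.induction_on with
  | empty =>
    intro c F B h1 h2
    have h3 := h1 ∅ subset_rfl
    have h4 := h2 ∅ subset_rfl
    simp at h3
    simpa [h3] using h4
  | insert a J ha ih =>
    intro c F B h1 h2
    have h3 := ih (fun S => c (insert a S)) (fun K => F (insert a K) - F K) (2 * B) ?_ ?_
    · rw [Finset.card_insert_of_notMem ha, pow_succ]
      linarith
    · intro K hK
      have haK : a ∉ K := fun h => ha (hK h)
      rw [h1 (insert a K) (Finset.insert_subset_insert a hK),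
        h1 K (hK.trans (Finset.subset_insert a J)), Finset.sum_powerset_insert haK]
      ring
    · intro K hK
      have h4 := abs_le.1 (h2 (insert a K) (Finset.insert_subset_insert a hK))
      have h5 := abs_le.1 (h2 K (hK.trans (Finset.subset_insert a J)))
      rw [abs_le]
      constructor <;> linarith [h4.1, h4.2, h5.1, h5.2]

/-- interpolation: a function of degree at most `d` is controlled by its values at small sets -/
theorem interp_bound {d : ℕ} {F : Finset α → ℝ} (h : HasDeg d F) (U : Finset α) (B : ℝ)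
    (hB : ∀ K ⊆ U, K.card ≤ d → |F K| ≤ B) :
    |F U| ≤ (∑ S ∈ U.powerset with S.card ≤ d, (2 : ℝ) ^ S.card) * B := by
  obtain ⟨c, hc, hF⟩ := h
  have h1 : F U = ∑ S ∈ U.powerset with S.card ≤ d, c S := by
    rw [hF U, Finset.sum_filter]
    refine Finset.sum_congr rfl fun S _ => ?_
    split_ifs with h
    · rfl
    · exact hc S (not_le.1 h)
  rw [h1, Finset.sum_mul]
  refine (Finset.abs_sum_le_sum_abs _ _).trans (Finset.sum_le_sum fun S hS => ?_)
  rw [Finset.mem_filter, Finset.mem_powerset] at hS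
  exact coeff_bound S c F B (fun K _ => hF K)
    (fun K hK => hB K (hK.trans hS.1) ((Finset.card_le_card hK).trans hS.2))

omit [DecidableEq α] in
theorem sum_two_pow (U : Finset α) : ∑ S ∈ U.powerset, (2 : ℝ) ^ S.card = 3 ^ U.card := by
  rw [Finset.sum_powerset_apply_card (fun m => (2 : ℝ) ^ m)]
  have h := add_pow (2 : ℝ) 1 U.card
  norm_num at h
  rw [h]
  exact Finset.sum_congr rfl fun m _ => by rw [nsmul_eq_mul]; ring

omit [DecidableEq α] in
theorem sum_two_pow_le (U : Finset α) (d : ℕ) :
    ∑ S ∈ U.powerset with S.card ≤ d, (2 : ℝ) ^ S.card ≤ 3 ^ U.card := by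
  rw [← sum_two_pow U]
  exact Finset.sum_le_sum_of_subset_of_nonneg (Finset.filter_subset _ _)
    (fun _ _ _ => by positivity)

omit [DecidableEq α] in
theorem sum_two_pow_le' (U : Finset α) (d v : ℕ) (hv : U.card ≤ v) :
    ∑ S ∈ U.powerset with S.card ≤ d, (2 : ℝ) ^ S.card ≤ (2 * v + 1) ^ d := by
  have h1 : ∑ S ∈ U.powerset with S.card ≤ d, (2 : ℝ) ^ S.card
      = ∑ j ∈ range (U.card + 1), if j ≤ d then (U.card.choose j : ℝ) * 2 ^ j else 0 := by
    rw [Finset.sum_filter, Finset.sum_powerset_apply_card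
      (fun m => if m ≤ d then (2 : ℝ) ^ m else 0)]
    refine Finset.sum_congr rfl fun j _ => ?_
    rw [nsmul_eq_mul]
    split_ifs <;> simp
  have h2 : ((2 : ℝ) * v + 1) ^ d = ∑ j ∈ range (d + 1), (2 * (v : ℝ)) ^ j * (d.choose j : ℝ) := by
    rw [add_pow]
    exact Finset.sum_congr rfl fun j _ => by ring
  rw [h1, h2, ← Finset.sum_filter]
  have h3 : ∀ j ∈ (range (U.card + 1)).filter (fun j => j ≤ d),
      (U.card.choose j : ℝ) * 2 ^ j ≤ (2 * (v : ℝ)) ^ j * (d.choose j : ℝ) := by
    intro j hj
    have hj' := (Finset.mem_filter.1 hj).2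
    have h4 : (U.card.choose j : ℝ) ≤ (v : ℝ) ^ j := by
      have h5 : U.card.choose j ≤ U.card ^ j := Nat.choose_le_pow _ _
      have h6 : U.card ^ j ≤ v ^ j := Nat.pow_le_pow_left hv j
      exact_mod_cast h5.trans h6
    have h7 : (1 : ℝ) ≤ (d.choose j : ℝ) := by
      exact_mod_cast Nat.choose_pos hj'
    calc (U.card.choose j : ℝ) * 2 ^ j ≤ (v : ℝ) ^ j * 2 ^ j := by gcongr
      _ = (2 * (v : ℝ)) ^ j * 1 := by rw [mul_pow]; ring
      _ ≤ _ := by gcongr
  refine (Finset.sum_le_sum h3).trans ?_
  refine Finset.sum_le_sum_of_subset_of_nonneg (fun j hj => ?_) (fun _ _ _ => by positivity)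
  rw [Finset.mem_filter] at hj
  exact Finset.mem_range.2 (by omega)

end Pool.Agent.helper36.DL
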