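import Mathlib

/-!
# Extrapolation to 0 from the nodes 1, 8, 32, ..., 8 d^2
-/

namespace Pool.Agent.helper36.DL

open Finset Polynomial

/-- the nodes: `1, 8, 32, ..., 8 i ^ 2` -/
noncomputable def node (i : ℕ) : ℝ := if i = 0 then 1 else 8 * (i : ℝ) ^ 2

theorem node_zero : node 0 = 1 := by simp [node]

theorem node_succ (i : ℕ) : node (i + 1) = 8 * ((i : ℝ) + 1) ^ 2 := by simp [node]

theorem node_strictMono : StrictMono node := by
  refine strictMono_nat_of_lt_succ fun i => ?_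
  rcases i with _ | i
  · rw [node_zero, node_succ]; norm_num
  · rw [node_succ, node_succ]
    push_cast
    have : (0 : ℝ) ≤ i := by positivity
    nlinarith

/-- closed form of the product of the `j ^ 2 / |j ^ 2 - i ^ 2|`, first part -/
theorem prod_low (i : ℕ) :
    (∏ j ∈ range i, (((j : ℝ) + 1) ^ 2 / (((i : ℝ) + 1) ^ 2 - ((j : ℝ) + 1) ^ 2)))
    * ((2 * i + 1).factorial : ℝ) = (i.factorial : ℝ) * ((i + 1).factorial : ℝ) := by
  have h1 : ∀ j ∈ range i, ((j : ℝ) + 1) ^ 2 / (((i : ℝ) + 1) ^ 2 - ((j : ℝ) + 1) ^ 2)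
      = (((j : ℝ) + 1) / ((i : ℝ) - j)) * (((j : ℝ) + 1) / ((i : ℝ) + 1 + (j + 1))) := by
    intro j hj
    have hj' : (j : ℝ) < i := by exact_mod_cast Finset.mem_range.1 hj
    have h2 : (i : ℝ) - j ≠ 0 := by linarith
    have h3 : (i : ℝ) + 1 + (j + 1) ≠ 0 := by positivity
    have h4 : ((i : ℝ) + 1) ^ 2 - ((j : ℝ) + 1) ^ 2 = (i - j) * (i + 1 + (j + 1)) := by ring
    rw [h4]
    field_simp
  rw [Finset.prod_congr rfl h1, Finset.prod_mul_distrib]
  have h5 : ∏ j ∈ range i, (((j : ℝ) + 1) / ((i : ℝ) - j)) = 1 := by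
    rw [Finset.prod_div_distrib]
    have h6 : ∏ j ∈ range i, ((i : ℝ) - j) = ∏ j ∈ range i, ((j : ℝ) + 1) := by
      rw [← Finset.prod_range_reflect]
      refine Finset.prod_congr rfl fun j hj => ?_
      have hj' := Finset.mem_range.1 hj
      have : ((i - 1 - j : ℕ) : ℝ) = i - 1 - j := by
        rw [Nat.cast_sub (by omega), Nat.cast_sub (by omega)]; simp
      rw [this]; ring
    rw [h6]
    exact div_self (Finset.prod_ne_zero_iff.2 fun j _ => by positivity)
  rw [h5, one_mul, Finset.prod_div_distrib]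
  have h7 : ∏ j ∈ range i, ((j : ℝ) + 1) = (i.factorial : ℝ) := by
    rw [← Finset.prod_range_add_one_eq_factorial]; push_cast; rfl
  have h8 : ∀ k : ℕ, (∏ j ∈ range k, ((i : ℝ) + 1 + (j + 1))) * ((i + 1).factorial : ℝ)
      = ((i + 1 + k).factorial : ℝ) := by
    intro k
    induction k with
    | zero => simp
    | succ k ih =>
      rw [Finset.prod_range_succ, mul_right_comm, ih, ← Nat.add_assoc, Nat.factorial_succ]
      push_cast
      ring
  have h9 := h8 i
  have h10 : i + 1 + i = 2 * i + 1 := by ring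
  rw [h10] at h9
  rw [h7, ← h9]
  have h11 : ∏ j ∈ range i, ((i : ℝ) + 1 + (j + 1)) ≠ 0 :=
    Finset.prod_ne_zero_iff.2 fun j _ => by positivity
  field_simp

/-- the product over `1 ≤ j ≤ d`, `j ≠ i + 1` -/
noncomputable def sqProd (i d : ℕ) : ℝ :=
  ∏ j ∈ range d, (if j = i then 1 else |((j : ℝ) + 1) ^ 2 / (((j : ℝ) + 1) ^ 2 - ((i : ℝ) + 1) ^ 2)|)

theorem sqProd_eq (i k : ℕ) : sqProd i (i + 1 + k) * ((k.factorial : ℝ) * ((2 * i + 2 + k).factorial : ℝ))
    = 2 * ((i + 1 + k).factorial : ℝ) ^ 2 := by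
  induction k with
  | zero =>
    have h1 : sqProd i (i + 1 + 0)
        = ∏ j ∈ range i, (((j : ℝ) + 1) ^ 2 / (((i : ℝ) + 1) ^ 2 - ((j : ℝ) + 1) ^ 2)) := by
      rw [sqProd, Nat.add_zero, Finset.prod_range_succ, if_pos rfl, mul_one]
      refine Finset.prod_congr rfl fun j hj => ?_
      have hj' := Finset.mem_range.1 hj
      rw [if_neg (by omega)]
      have hj2 : (j : ℝ) + 1 ≤ i := by exact_mod_cast hj'
      have hj0 : (0 : ℝ) ≤ j := by positivity
      have h2 : 0 < ((i : ℝ) + 1) ^ 2 - ((j : ℝ) + 1) ^ 2 := by nlinarith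
      rw [abs_div, abs_of_nonneg (by positivity), abs_sub_comm, abs_of_pos h2]
    have h3 := prod_low i
    rw [h1, Nat.factorial_zero, Nat.cast_one, one_mul, Nat.add_zero, Nat.add_zero]
    have h4 : ((2 * i + 2).factorial : ℝ) = 2 * (i + 1) * ((2 * i + 1).factorial : ℝ) := by
      rw [Nat.factorial_succ]; push_cast; ring
    have h5 : ((i + 1).factorial : ℝ) = (i + 1) * (i.factorial : ℝ) := by
      rw [Nat.factorial_succ]; push_cast; ring
    rw [h4]
    calc _ = 2 * ((i : ℝ) + 1) * ((∏ j ∈ range i,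
            (((j : ℝ) + 1) ^ 2 / (((i : ℝ) + 1) ^ 2 - ((j : ℝ) + 1) ^ 2)))
              * ((2 * i + 1).factorial : ℝ)) := by
            generalize (∏ j ∈ range i,
              (((j : ℝ) + 1) ^ 2 / (((i : ℝ) + 1) ^ 2 - ((j : ℝ) + 1) ^ 2))) = P
            ring
      _ = _ := by rw [h3, h5]; ring
  | succ k ih =>
    have h1 : sqProd i (i + 1 + (k + 1)) = sqProd i (i + 1 + k)
        * (((i : ℝ) + k + 2) ^ 2 / ((k + 1) * (2 * i + k + 3))) := by
      rw [sqProd, sqProd, ← Nat.add_assoc, Finset.prod_range_succ, if_neg (by omega)]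
      congr 1
      have h2 : ((((i + 1 + k : ℕ) : ℝ)) + 1) ^ 2 - ((i : ℝ) + 1) ^ 2
          = (k + 1) * (2 * i + k + 3) := by push_cast; ring
      rw [h2, abs_of_nonneg (by positivity)]
      push_cast
      congr 1
      ring
    have h3 : (((k + 1).factorial : ℕ) : ℝ) = (k + 1) * (k.factorial : ℝ) := by
      rw [Nat.factorial_succ]; push_cast; ring
    have h4 : ((2 * i + 2 + (k + 1)).factorial : ℝ)
        = (2 * i + k + 3) * ((2 * i + 2 + k).factorial : ℝ) := by
      rw [← Nat.add_assoc, Nat.factorial_succ]; push_cast; ring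
    have h5 : ((i + 1 + (k + 1)).factorial : ℝ) = (i + k + 2) * ((i + 1 + k).factorial : ℝ) := by
      rw [← Nat.add_assoc, Nat.factorial_succ]; push_cast; ring
    rw [h1, h3, h4, h5, mul_pow]
    have h6 : ((k : ℝ) + 1) * (2 * i + k + 3) ≠ 0 := by positivity
    have h7 : sqProd i (i + 1 + k) * (((i : ℝ) + k + 2) ^ 2 / ((k + 1) * (2 * i + k + 3)))
        * ((k + 1) * (k.factorial : ℝ) * ((2 * i + k + 3) * ((2 * i + 2 + k).factorial : ℝ)))
        = (sqProd i (i + 1 + k) * ((k.factorial : ℝ) * ((2 * i + 2 + k).factorial : ℝ)))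
          * ((i : ℝ) + k + 2) ^ 2 := by
      field_simp
    rw [h7, ih]
    ring

theorem fact_conv (a b c : ℕ) (h : a ≤ b) : b.factorial * (a + c).factorial ≤ a.factorial * (b + c).factorial := by
  induction c with
  | zero => simp [mul_comm]
  | succ c ih =>
    rw [← Nat.add_assoc, ← Nat.add_assoc, Nat.factorial_succ, Nat.factorial_succ]
    calc b.factorial * ((a + c + 1) * (a + c).factorial)
        = (a + c + 1) * (b.factorial * (a + c).factorial) := by ring
      _ ≤ (b + c + 1) * (a.factorial * (b + c).factorial) := by gcongr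
      _ = _ := by ring

theorem sqProd_le {i d : ℕ} (h : i < d) : sqProd i d ≤ 2 := by
  obtain ⟨k, rfl⟩ := Nat.exists_eq_add_of_lt h
  have h1 : i + k + 1 = i + 1 + k := by ring
  rw [h1]
  have h2 := sqProd_eq i k
  have h3 : ((i + 1 + k).factorial) * (k + (i + 1)).factorial
      ≤ k.factorial * ((i + 1 + k) + (i + 1)).factorial := fact_conv _ _ _ (by omega)
  have h4 : (k + (i + 1)) = i + 1 + k := by ring
  have h5 : (i + 1 + k) + (i + 1) = 2 * i + 2 + k := by ring
  rw [h4, h5] at h3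
  have h6 : ((i + 1 + k).factorial : ℝ) ^ 2 ≤ (k.factorial : ℝ) * ((2 * i + 2 + k).factorial : ℝ) := by
    rw [sq]; exact_mod_cast h3
  have h7 : 0 < (k.factorial : ℝ) * ((2 * i + 2 + k).factorial : ℝ) := by positivity
  by_contra h8
  push Not at h8
  nlinarith

/-- the weights of the extrapolation to 0 -/
noncomputable def wgt (d i : ℕ) : ℝ := (Lagrange.basis (range (d + 1)) node i).eval 0

theorem wgt_eq (d i : ℕ) (_hi : i < d + 1) :
    wgt d i = ∏ j ∈ (range (d + 1)).erase i, (- node j) / (node i - node j) := by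
  rw [wgt, Lagrange.basis, Polynomial.eval_prod]
  refine Finset.prod_congr rfl fun j _ => ?_
  rw [Lagrange.basisDivisor]
  simp only [eval_mul, eval_C, eval_sub, eval_X]
  rw [zero_sub, div_eq_inv_mul]

theorem wgt_zero_nonneg (d : ℕ) : 0 ≤ wgt d 0 := by
  rw [wgt_eq d 0 (by omega)]
  refine Finset.prod_nonneg fun j hj => ?_
  have hj' : 0 < j := Nat.pos_of_ne_zero (Finset.mem_erase.1 hj).1
  have h1 : node 0 < node j := node_strictMono hj'
  have h2 : node 0 = 1 := node_zero
  rw [← neg_div_neg_eq]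
  exact div_nonneg (by linarith) (by linarith)

theorem wgt_succ_abs (d i : ℕ) (hi : i < d) :
    |wgt d (i + 1)| ≤ 1 / ((2 * i + 1) * (2 * i + 3)) := by
  have h1 : |wgt d (i + 1)| = sqProd i d * (1 / (8 * ((i : ℝ) + 1) ^ 2 - 1)) := by
    rw [wgt_eq d (i + 1) (by omega), Finset.abs_prod]
    have h2 : ∏ j ∈ (range (d + 1)).erase (i + 1), |(- node j) / (node (i + 1) - node j)|
        = ∏ j ∈ range (d + 1), if j = i + 1 then 1 else |(- node j) / (node (i + 1) - node j)| := by
      rw [← Finset.mul_prod_erase (range (d + 1)) (fun j => if j = i + 1 then (1 : ℝ) else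
        |(- node j) / (node (i + 1) - node j)|) (Finset.mem_range.2 (by omega : i + 1 < d + 1)),
        if_pos rfl, one_mul]
      refine Finset.prod_congr rfl fun j hj => ?_
      rw [if_neg (Finset.mem_erase.1 hj).1]
    rw [h2, Finset.prod_range_succ', sqProd]
    congr 1
    · refine Finset.prod_congr rfl fun j _ => ?_
      by_cases hji : j = i
      · rw [if_pos (by omega), if_pos hji]
      · rw [if_neg (by omega), if_neg hji, node_succ, node_succ]
        have h3 : -(8 * ((j : ℝ) + 1) ^ 2) / (8 * ((i : ℝ) + 1) ^ 2 - 8 * ((j : ℝ) + 1) ^ 2)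
            = ((j : ℝ) + 1) ^ 2 / (((j : ℝ) + 1) ^ 2 - ((i : ℝ) + 1) ^ 2) := by
          have h4 : 8 * ((i : ℝ) + 1) ^ 2 - 8 * ((j : ℝ) + 1) ^ 2
              = - (8 * (((j : ℝ) + 1) ^ 2 - ((i : ℝ) + 1) ^ 2)) := by ring
          rw [h4, neg_div_neg_eq, mul_div_mul_left _ _ (by norm_num)]
        rw [h3]
    · rw [if_neg (by omega), node_succ, node_zero, abs_div, abs_neg, abs_one]
      congr 1
      refine abs_of_nonneg ?_
      have : (0 : ℝ) ≤ i := by positivity
      nlinarith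
  rw [h1]
  have h5 := sqProd_le hi
  have h6 : (0 : ℝ) ≤ i := by positivity
  have h7 : (0 : ℝ) < 8 * ((i : ℝ) + 1) ^ 2 - 1 := by nlinarith
  calc sqProd i d * (1 / (8 * ((i : ℝ) + 1) ^ 2 - 1)) ≤ 2 * (1 / (8 * ((i : ℝ) + 1) ^ 2 - 1)) := by
        gcongr
    _ = 2 / (8 * ((i : ℝ) + 1) ^ 2 - 1) := by ring
    _ ≤ 1 / ((2 * i + 1) * (2 * i + 3)) := by
        rw [div_le_div_iff₀ h7 (by positivity)]
        nlinarith

theorem sum_inv (d : ℕ) : ∑ i ∈ range d, (1 : ℝ) / ((2 * i + 1) * (2 * i + 3))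
    = d / (2 * d + 1) := by
  induction d with
  | zero => simp
  | succ d ih =>
    rw [Finset.sum_range_succ, ih]
    push_cast
    field_simp
    ring

/-- a polynomial of degree at most `d` which is nonpositive at 0 and nonnegative at the nodes -/
theorem growth_poly (d : ℕ) (Q : ℝ[X]) (hQ : Q.natDegree ≤ d) (s : ℝ) (hs : 0 ≤ s)
    (h0 : Q.eval 0 = -s) (hpos : ∀ i < d + 1, 0 ≤ Q.eval (node i)) :
    ∃ i < d + 1, 2 * s ≤ Q.eval (node i) := by
  rcases hs.eq_or_lt with rfl | hs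
  · exact ⟨0, by omega, by simpa using hpos 0 (by omega)⟩
  by_contra hcon
  push Not at hcon
  have hdeg : Q.degree < (range (d + 1)).card := by
    rw [Finset.card_range]
    exact lt_of_le_of_lt Polynomial.degree_le_natDegree (by exact_mod_cast Nat.lt_succ_of_le hQ)
  have h1 := Lagrange.eq_interpolate (f := Q) (s := range (d + 1)) (v := node)
    (fun a _ b _ h => node_strictMono.injective h) hdeg
  have h2 : Q.eval 0 = ∑ i ∈ range (d + 1), Q.eval (node i) * wgt d i := by
    conv_lhs => rw [h1]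
    rw [Lagrange.interpolate_apply, Polynomial.eval_finsetSum]
    refine Finset.sum_congr rfl fun i _ => ?_
    rw [Polynomial.eval_mul, Polynomial.eval_C, wgt]
  rw [h0, Finset.sum_range_succ'] at h2
  have h3 : 0 ≤ Q.eval (node 0) * wgt d 0 := mul_nonneg (hpos 0 (by omega)) (wgt_zero_nonneg d)
  have h4 : ∀ i ∈ range d, - (2 * s * (1 / ((2 * (i : ℝ) + 1) * (2 * i + 3))))
      ≤ Q.eval (node (i + 1)) * wgt d (i + 1) := by
    intro i hi
    have hi' := Finset.mem_range.1 hi
    have h5 := wgt_succ_abs d i hi'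
    have h6 := hpos (i + 1) (by omega)
    have h7 := hcon (i + 1) (by omega)
    have h8 : |Q.eval (node (i + 1)) * wgt d (i + 1)|
        ≤ 2 * s * (1 / ((2 * (i : ℝ) + 1) * (2 * i + 3))) := by
      rw [abs_mul, abs_of_nonneg h6]
      gcongr
    exact (abs_le.1 h8).1
  have h9 := Finset.sum_le_sum h4
  rw [Finset.sum_neg_distrib, ← Finset.mul_sum, sum_inv] at h9
  have h10 : (d : ℝ) / (2 * d + 1) < 1 / 2 := by
    rw [div_lt_div_iff₀ (by positivity) (by norm_num)]
    linarith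
  nlinarith

end Pool.Agent.helper36.DL
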